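import Pool.Agent.P8H7.SV.Ang

set_option autoImplicit false

/-!
# Project SV: domains bounded by a circle (package DISC)
-/

open MeasureTheory Set Filter Metric
open scoped Topology ContDiff ComplexConjugate

namespace Pool.Agent.P8H7.SV

open Pool.Agent.P8H8.SV

theorem im_open {φ : ℂ → ℂ} {r : ℝ} (h : Dom φ r) {s : Set ℂ} (hs : s ⊆ ball 0 r) (ho : IsOpen s) :
    IsOpen (φ '' s) := by
  have hr0 : (0 : ℝ) < r := by linarith [h.hr]
  have hA : AnalyticOnNhd ℂ φ (ball 0 r) := fun z hz => Dom_open h hz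
  rcases hA.is_constant_or_isOpen (convex_ball 0 r).isPreconnected with ⟨w, hw⟩ | h1
  · exfalso
    have h0 : (0 : ℂ) ∈ ball (0 : ℂ) r := mem_ball_self hr0
    have h1 : (1 : ℂ) ∈ ball (0 : ℂ) r := by
      rw [mem_ball_zero_iff, norm_one]; exact h.hr
    exact zero_ne_one (h.inj h0 h1 ((hw 0 h0).trans (hw 1 h1).symm))
  · exact h1 s hs ho

theorem exists_arg {w : ℂ} (hw : ‖w‖ = 1) : ∃ t : ℝ, Complex.exp (t * Complex.I) = w := by
  refine ⟨Complex.arg w, ?_⟩
  have := Complex.norm_mul_exp_arg_mul_I w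
  rw [hw] at this
  simpa using this

theorem cball_sub {r : ℝ} (hr : 1 < r) : closedBall (0 : ℂ) 1 ⊆ ball 0 r := closedBall_subset_ball hr

/-- package DISC -/
theorem t_DISC : S_DISC := by
  intro φ r a R h hR hc
  have hco : ContinuousOn φ (closedBall 0 1) := h.hol.continuousOn.mono (cball_sub h.hr)
  have hop : IsOpen (φ '' ball 0 1) := im_open h (ball_subset_ball h.hr.le) isOpen_ball
  have hsub : φ '' ball 0 1 ⊆ closedBall a R := by
    rintro _ ⟨w, hw, rfl⟩
    rw [mem_closedBall, dist_eq_norm]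
    have hd : DiffContOnCl ℂ (fun z => φ z - a) (ball 0 1) := by
      refine DiffContOnCl.sub_const ⟨h.hol.mono (ball_subset_ball h.hr.le), ?_⟩ a
      rw [closure_ball _ one_ne_zero]
      exact hco
    refine Complex.norm_le_of_forall_mem_frontier_norm_le isBounded_ball hd ?_ (subset_closure hw)
    intro z hz
    rw [frontier_ball _ one_ne_zero, mem_sphere_zero_iff_norm] at hz
    obtain ⟨t, ht⟩ := exists_arg hz
    have := hc t
    unfold γ at this
    rw [ht] at this
    exact this.le
  have hsub' : φ '' ball 0 1 ⊆ ball a R := by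
    have := interior_maximal hsub hop
    rwa [interior_closedBall _ hR.ne'] at this
  refine hsub'.antisymm ?_
  refine (convex_ball a R).isPreconnected.subset_of_closure_inter_subset hop ?_ ?_
  · refine ⟨φ 0, hsub' ⟨0, mem_ball_self one_pos, rfl⟩, 0, mem_ball_self one_pos, rfl⟩
  · rintro y ⟨hy, hyb⟩
    have hcpt : IsCompact (φ '' closedBall 0 1) := (isCompact_closedBall 0 1).image_of_continuousOn hco
    have hy2 : y ∈ φ '' closedBall 0 1 :=
      closure_minimal (image_mono ball_subset_closedBall) hcpt.isClosed hy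
    obtain ⟨w, hw, rfl⟩ := hy2
    rcases lt_or_eq_of_le (mem_closedBall_zero_iff.1 hw) with hw1 | hw1
    · exact ⟨w, mem_ball_zero_iff.2 hw1, rfl⟩
    · exfalso
      obtain ⟨t, ht⟩ := exists_arg hw1
      have := hc t
      unfold γ at this
      rw [ht] at this
      rw [mem_ball, dist_eq_norm, this] at hyb
      exact lt_irrefl _ hyb

end Pool.Agent.P8H7.SV
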