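import Pool.Agent.P8H8.SV.Stm
import Pool.Agent.Helper202.Geom

set_option autoImplicit false

/-!
# Project SV: the direction function (package ANG)
-/

open MeasureTheory Set Filter Metric
open scoped Topology ContDiff ComplexConjugate

namespace Pool.Agent.P8H7.SV

open Pool.Agent.P8H8.SV

theorem Dom_open {φ : ℂ → ℂ} {r : ℝ} (h : Dom φ r) {w : ℂ} (hw : w ∈ ball (0 : ℂ) r) :
    AnalyticAt ℂ φ w := h.hol.analyticAt (isOpen_ball.mem_nhds hw)

theorem Dom_ne {φ : ℂ → ℂ} {r : ℝ} (h : Dom φ r) {w : ℂ} (hw : w ∈ ball (0 : ℂ) r) :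
    deriv φ w ≠ 0 :=
  Pool.Agent.Helper202.Geom.deriv_ne_zero_of_injOn isOpen_ball h.hol h.inj hw

theorem circ_mem {r : ℝ} (hr : 1 < r) (t : ℝ) : Complex.exp (t * Complex.I) ∈ ball (0 : ℂ) r := by
  rw [mem_ball_zero_iff, Complex.norm_exp_ofReal_mul_I]
  exact hr

/-- a holomorphic logarithm of `φ'` -/
theorem exists_L {φ : ℂ → ℂ} {r : ℝ} (h : Dom φ r) : ∃ L : ℂ → ℂ,
    (∀ w ∈ ball (0 : ℂ) r, HasDerivAt L (deriv (deriv φ) w / deriv φ w) w) ∧
    ∀ w ∈ ball (0 : ℂ) r, deriv φ w = Complex.exp (L w) := by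
  have hd : DifferentiableOn ℂ (deriv φ) (ball 0 r) := h.hol.deriv isOpen_ball
  have hdd : DifferentiableOn ℂ (deriv (deriv φ)) (ball 0 r) := hd.deriv isOpen_ball
  have hq : DifferentiableOn ℂ (fun w => deriv (deriv φ) w / deriv φ w) (ball 0 r) :=
    hdd.div hd fun w hw => Dom_ne h hw
  obtain ⟨L0, hL0⟩ := hq.isExactOn_ball
  have hr0 : (0 : ℝ) < r := by linarith [h.hr]
  have h0 : (0 : ℂ) ∈ ball (0 : ℂ) r := mem_ball_self hr0
  have hconst : ∀ w ∈ ball (0 : ℂ) r, deriv φ w * Complex.exp (-L0 w) =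
      deriv φ 0 * Complex.exp (-L0 0) := by
    intro w hw
    have hder : ∀ z ∈ ball (0 : ℂ) r, HasDerivAt (fun z => deriv φ z * Complex.exp (-L0 z)) 0 z := by
      intro z hz
      have h1 : HasDerivAt (deriv φ) (deriv (deriv φ) z) z :=
        ((hd z hz).differentiableAt (isOpen_ball.mem_nhds hz)).hasDerivAt
      have h2 : HasDerivAt (fun z => Complex.exp (-L0 z))
          (Complex.exp (-L0 z) * -(deriv (deriv φ) z / deriv φ z)) z := ((hL0 z hz).neg).cexp
      have h3 := h1.mul h2
      have hne := Dom_ne h hz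
      have h4 : deriv (deriv φ) z * Complex.exp (-L0 z) +
          deriv φ z * (Complex.exp (-L0 z) * -(deriv (deriv φ) z / deriv φ z)) = 0 := by
        field_simp
        ring
      rw [h4] at h3
      exact h3
    have hcv : Convex ℝ (ball (0 : ℂ) r) := convex_ball 0 r
    have := hcv.is_const_of_fderivWithin_eq_zero (𝕜 := ℂ) (f := fun z => deriv φ z * Complex.exp (-L0 z))
      (fun z hz => (hder z hz).differentiableAt.differentiableWithinAt)
      (fun z hz => by
        rw [fderivWithin_of_isOpen isOpen_ball hz, (hder z hz).hasFDerivAt.fderiv]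
        ext
        simp) hw h0
    exact this
  refine ⟨fun w => L0 w + Complex.log (deriv φ 0 * Complex.exp (-L0 0)), fun w hw => ?_, fun w hw => ?_⟩
  · exact (hL0 w hw).add_const _
  · have hne : deriv φ 0 * Complex.exp (-L0 0) ≠ 0 := mul_ne_zero (Dom_ne h h0) (Complex.exp_ne_zero _)
    rw [Complex.exp_add, Complex.exp_log hne, ← hconst w hw]
    have : Complex.exp (L0 w) * (deriv φ w * Complex.exp (-L0 w)) =
        deriv φ w * (Complex.exp (L0 w) * Complex.exp (-L0 w)) := by ring
    rw [this, ← Complex.exp_add, add_neg_cancel, Complex.exp_zero, mul_one]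

/-- package ANG -/
theorem t_ANG : S_ANG := by
  intro φ r h
  obtain ⟨L, hL, hLe⟩ := exists_L h
  have hLd : DifferentiableOn ℂ L (ball 0 r) := fun w hw =>
    (hL w hw).differentiableAt.differentiableWithinAt
  have hexp : ∀ t : ℝ, HasDerivAt (fun s : ℝ => Complex.exp (s * Complex.I))
      (Complex.exp (t * Complex.I) * Complex.I) t := by
    intro t
    have h1 : HasDerivAt (fun s : ℝ => (s : ℂ) * Complex.I) (1 * Complex.I) t :=
      (HasDerivAt.ofReal_comp (hasDerivAt_id t)).mul_const _
    have h2 := h1.cexp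
    rwa [one_mul] at h2
  refine ⟨fun t => t + (L (Complex.exp (t * Complex.I))).im, ?_, ?_, ?_, ?_⟩
  · have hexpc : ContDiff ℝ ∞ (fun s : ℝ => Complex.exp (s * Complex.I)) :=
      (Complex.ofRealCLM.contDiff.mul contDiff_const).cexp
    refine contDiff_id.add ?_
    have hLR : ContDiffOn ℝ ∞ L (ball (0 : ℂ) r) := by
      have h1 : ContDiffOn ℂ ∞ L (ball (0 : ℂ) r) := hLd.contDiffOn isOpen_ball
      exact h1.restrict_scalars ℝ
    have h2 : ContDiff ℝ ∞ (fun t : ℝ => L (Complex.exp (t * Complex.I))) := by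
      rw [contDiff_iff_contDiffAt]
      intro t
      exact (hLR.contDiffAt (isOpen_ball.mem_nhds (circ_mem h.hr t))).comp t hexpc.contDiffAt
    exact Complex.imCLM.contDiff.comp h2
  · intro t
    have : Complex.exp (((t + 2 * Real.pi : ℝ) : ℂ) * Complex.I) = Complex.exp (t * Complex.I) := by
      push_cast
      rw [add_mul, Complex.exp_add, Complex.exp_two_pi_mul_I, mul_one]
    simp only [this]
    ring
  · intro t
    unfold N
    rw [hLe _ (circ_mem h.hr t), ← Complex.exp_add, Complex.norm_exp, Complex.ofReal_exp,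
      ← Complex.exp_add]
    congr 1
    apply Complex.ext
    · simp
    · simp
  · intro t
    have h1 : HasDerivAt (fun s : ℝ => L (Complex.exp (s * Complex.I)))
        ((deriv (deriv φ) (Complex.exp (t * Complex.I)) / deriv φ (Complex.exp (t * Complex.I))) *
          (Complex.exp (t * Complex.I) * Complex.I)) t :=
      HasDerivAt.comp_of_eq (h₂ := L) t (hL _ (circ_mem h.hr t)) (hexp t) rfl
    have h2 : HasDerivAt (fun s : ℝ => (L (Complex.exp (s * Complex.I))).im)
        ((deriv (deriv φ) (Complex.exp (t * Complex.I)) / deriv φ (Complex.exp (t * Complex.I))) *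
          (Complex.exp (t * Complex.I) * Complex.I)).im t := by
      have := Complex.imCLM.hasFDerivAt.comp_hasDerivAt t h1
      exact this
    have h3 := (hasDerivAt_id t).add h2
    have h4 : deriv (fun s : ℝ => s + (L (Complex.exp (s * Complex.I))).im) t = 1 +
        ((deriv (deriv φ) (Complex.exp (t * Complex.I)) / deriv φ (Complex.exp (t * Complex.I))) *
          (Complex.exp (t * Complex.I) * Complex.I)).im := h3.deriv
    rw [h4, Complex.add_re, Complex.one_re]
    congr 1
    have h5 : (deriv (deriv φ) (Complex.exp (t * Complex.I)) / deriv φ (Complex.exp (t * Complex.I))) *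
          (Complex.exp (t * Complex.I) * Complex.I) = (Complex.exp (t * Complex.I) *
    deriv (deriv φ) (Complex.exp (t * Complex.I)) / deriv φ (Complex.exp (t * Complex.I))) *
      Complex.I := by ring
    rw [h5, Complex.mul_I_im]

end Pool.Agent.P8H7.SV
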