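import Pool.Agent.P8H7.SV.Disc

set_option autoImplicit false

/-!
# Project SV: convex domains (package CONV)
-/

open MeasureTheory Set Filter Metric
open scoped Topology ContDiff ComplexConjugate

namespace Pool.Agent.P8H7.SV

open Pool.Agent.P8H8.SV

theorem exp_der (t : ℝ) : HasDerivAt (fun s : ℝ => Complex.exp (s * Complex.I))
      (Complex.exp (t * Complex.I) * Complex.I) t := by
  have h1 : HasDerivAt (fun s : ℝ => (s : ℂ) * Complex.I) (1 * Complex.I) t :=
    (HasDerivAt.ofReal_comp (hasDerivAt_id t)).mul_const _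
  have h2 := h1.cexp
  rwa [one_mul] at h2

theorem γ_der {φ : ℂ → ℂ} {r : ℝ} (h : Dom φ r) (t : ℝ) :
    HasDerivAt (γ φ) (Complex.I * N φ t) t := by
  have h1 : HasDerivAt φ (deriv φ (Complex.exp (t * Complex.I))) (Complex.exp (t * Complex.I)) :=
    (Dom_open h (circ_mem h.hr t)).differentiableAt.hasDerivAt
  have h2 := HasDerivAt.comp_of_eq (h₂ := φ) t h1 (exp_der t) rfl
  have h3 : deriv φ (Complex.exp (t * Complex.I)) * (Complex.exp (t * Complex.I) * Complex.I) =
      Complex.I * N φ t := by unfold N; ring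
  rw [h3] at h2
  exact h2

theorem N_ne {φ : ℂ → ℂ} {r : ℝ} (h : Dom φ r) (t : ℝ) : N φ t ≠ 0 :=
  mul_ne_zero (Complex.exp_ne_zero _) (Dom_ne h (circ_mem h.hr t))

/-- every real functional is determined by the values on `N` and `i N` -/
theorem fun_eq (f : StrongDual ℝ ℂ) {n : ℂ} (hn : n ≠ 0) (h : f (Complex.I * n) = 0) (z : ℂ) :
    f z = ip z n / ‖n‖ ^ 2 * f n := by
  have hn2 : (‖n‖ : ℝ) ^ 2 ≠ 0 := by positivity
  have hns : (‖n‖ : ℝ) ^ 2 = n.re ^ 2 + n.im ^ 2 := by
    rw [← Complex.normSq_eq_norm_sq, Complex.normSq_apply]; ring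
  have h1 : z = (ip z n / ‖n‖ ^ 2) • n + (ip z (Complex.I * n) / ‖n‖ ^ 2) • (Complex.I * n) := by
    have ha : ip z n = z.re * n.re + z.im * n.im := by
      unfold ip; simp
    have hb : ip z (Complex.I * n) = z.im * n.re - z.re * n.im := by
      unfold ip
      rw [map_mul, Complex.conj_I]
      simp only [Complex.mul_re, Complex.mul_im, Complex.neg_re, Complex.neg_im, Complex.I_re,
        Complex.I_im, Complex.conj_re, Complex.conj_im]
      ring
    rw [ha, hb, hns]
    rw [hns] at hn2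
    apply Complex.ext
    · simp only [Complex.add_re, Complex.smul_re, smul_eq_mul, Complex.mul_re, Complex.I_re,
        Complex.I_im]
      field_simp
      ring
    · simp only [Complex.add_im, Complex.smul_im, smul_eq_mul, Complex.mul_im, Complex.I_re,
        Complex.I_im]
      field_simp
      ring
  conv_lhs => rw [h1]
  rw [map_add, map_smul, map_smul, h, smul_zero, add_zero, smul_eq_mul]

theorem conv1 {φ : ℂ → ℂ} {r : ℝ} (h : Dom φ r) (hc : Convex ℝ (φ '' ball 0 1)) (s t : ℝ) :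
    ip (γ φ s - γ φ t) (N φ t) ≤ 0 := by
  have hop : IsOpen (φ '' ball 0 1) := im_open h (ball_subset_ball h.hr.le) isOpen_ball
  have hnot : γ φ t ∉ φ '' ball 0 1 := by
    rintro ⟨w, hw, hwe⟩
    have := h.inj (ball_subset_ball h.hr.le hw) (circ_mem h.hr t) hwe
    rw [this, mem_ball_zero_iff, Complex.norm_exp_ofReal_mul_I] at hw
    exact lt_irrefl _ hw
  obtain ⟨f, hf⟩ := geometric_hahn_banach_open_point hc hop hnot
  -- the radial approach
  have hrad : ∀ (u : ℝ) (x : ℝ), 0 ≤ x → x < 1 → φ (x * Complex.exp (u * Complex.I)) ∈ φ '' ball 0 1 := by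
    intro u x hx hx1
    refine ⟨_, ?_, rfl⟩
    rw [mem_ball_zero_iff, norm_mul, Complex.norm_exp_ofReal_mul_I, mul_one, Complex.norm_real,
      Real.norm_eq_abs, abs_of_nonneg hx]
    exact hx1
  have hradd : ∀ u : ℝ, HasDerivAt (fun x : ℝ => φ (x * Complex.exp (u * Complex.I))) (N φ u) 1 := by
    intro u
    have h1 : HasDerivAt φ (deriv φ (Complex.exp (u * Complex.I)))
        (((1 : ℝ) : ℂ) * Complex.exp (u * Complex.I)) := by
      rw [Complex.ofReal_one, one_mul]
      exact (Dom_open h (circ_mem h.hr u)).differentiableAt.hasDerivAt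
    have h2 : HasDerivAt (fun x : ℝ => (x : ℂ) * Complex.exp (u * Complex.I))
        (1 * Complex.exp (u * Complex.I)) (1 : ℝ) :=
      (HasDerivAt.ofReal_comp (hasDerivAt_id (1 : ℝ))).mul_const _
    have h3 := HasDerivAt.comp_of_eq (h₂ := φ) (1 : ℝ) h1 h2 rfl
    have h4 : deriv φ (Complex.exp (u * Complex.I)) * (1 * Complex.exp (u * Complex.I)) = N φ u := by
      unfold N; ring
    rw [h4] at h3
    exact h3
  have hle : ∀ u : ℝ, f (γ φ u) ≤ f (γ φ t) := by
    intro u
    have h1 : Tendsto (fun x : ℝ => f (φ (x * Complex.exp (u * Complex.I)))) (𝓝[<] 1)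
        (𝓝 (f (φ (((1 : ℝ) : ℂ) * Complex.exp (u * Complex.I))))) :=
      ((f.continuous.continuousAt.comp (hradd u).continuousAt).tendsto).mono_left nhdsWithin_le_nhds
    rw [Complex.ofReal_one, one_mul] at h1
    refine le_of_tendsto h1 ?_
    have h2 : ∀ᶠ x : ℝ in 𝓝[<] 1, x < 1 := self_mem_nhdsWithin
    have h3 : ∀ᶠ x : ℝ in 𝓝[<] 1, 0 ≤ x :=
      mem_nhdsWithin_of_mem_nhds (Ici_mem_nhds (by norm_num : (0 : ℝ) < 1))
    filter_upwards [h2, h3] with x hx1 hx0
    exact (hf _ (hrad u x hx0 hx1)).le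
  -- the tangential derivative
  have htan : f (Complex.I * N φ t) = 0 := by
    have h1 : HasDerivAt (fun u : ℝ => f (γ φ u)) (f (Complex.I * N φ t)) t :=
      f.hasFDerivAt.comp_hasDerivAt t (γ_der h t)
    have h2 : IsLocalMax (fun u : ℝ => f (γ φ u)) t := Eventually.of_forall hle
    exact h2.hasDerivAt_eq_zero h1
  have hform := fun_eq f (N_ne h t) htan
  -- the normal derivative
  have hnn : 0 ≤ f (N φ t) := by
    have h1 : HasDerivAt (fun x : ℝ => f (φ (x * Complex.exp (t * Complex.I)))) (f (N φ t)) 1 :=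
      f.hasFDerivAt.comp_hasDerivAt (1 : ℝ) (hradd t)
    have h2 := (hasDerivAt_iff_tendsto_slope.1 h1).mono_left
      (nhdsWithin_mono (1 : ℝ) (fun x (hx : x < 1) => (ne_of_lt hx : x ≠ 1)) :
        𝓝[<] (1 : ℝ) ≤ 𝓝[≠] 1)
    refine ge_of_tendsto h2 ?_
    have h3 : ∀ᶠ x : ℝ in 𝓝[<] 1, x < 1 := self_mem_nhdsWithin
    have h4 : ∀ᶠ x : ℝ in 𝓝[<] 1, 0 ≤ x :=
      mem_nhdsWithin_of_mem_nhds (Ici_mem_nhds (by norm_num : (0 : ℝ) < 1))
    filter_upwards [h3, h4] with x hx1 hx0
    rw [slope_def_field, Complex.ofReal_one, one_mul]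
    have h5 := hf _ (hrad t x hx0 hx1)
    apply div_nonneg_of_nonpos
    · have h6 : f (γ φ t) = f (φ (Complex.exp (t * Complex.I))) := rfl
      rw [h6] at h5
      linarith
    · linarith
  have hpos : 0 < f (N φ t) := by
    refine lt_of_le_of_ne hnn fun h0 => ?_
    have h1 := hf _ (hrad t 0 le_rfl (by norm_num))
    rw [hform (γ φ t), hform (φ _), ← h0] at h1
    simp at h1
  have h1 := hle s
  have h2 : f (γ φ s - γ φ t) ≤ 0 := by rw [map_sub]; linarith
  rw [hform] at h2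
  have hn2 : 0 < ‖N φ t‖ ^ 2 := by have := N_ne h t; positivity
  by_contra h3
  rw [not_le] at h3
  have : 0 < ip (γ φ s - γ φ t) (N φ t) / ‖N φ t‖ ^ 2 * f (N φ t) := by positivity
  linarith

theorem ip_N {φ : ℂ → ℂ} {Θ : ℝ → ℝ} (hΘ : Ang φ Θ) (s t : ℝ) :
    ip (Complex.I * N φ s) (N φ t) = -(‖N φ s‖ * ‖N φ t‖ * Real.sin (Θ s - Θ t)) := by
  have h1 : Complex.I * N φ s * conj (N φ t) =
      ((‖N φ s‖ * ‖N φ t‖ : ℝ) : ℂ) * (Complex.I * Complex.exp ((Θ s - Θ t : ℝ) * Complex.I)) := by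
    conv_lhs => rw [hΘ.eq s, hΘ.eq t]
    rw [map_mul, Complex.conj_ofReal, ← Complex.exp_conj, map_mul, Complex.conj_I,
      Complex.conj_ofReal]
    have : Complex.exp ((Θ s - Θ t : ℝ) * Complex.I) =
        Complex.exp (Θ s * Complex.I) * Complex.exp (Θ t * -Complex.I) := by
      rw [← Complex.exp_add]
      congr 1
      push_cast
      ring
    rw [this]
    push_cast
    ring
  unfold ip
  rw [h1, Complex.re_ofReal_mul, Complex.I_mul_re, Complex.exp_ofReal_mul_I_im]
  ring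

theorem k_der {φ : ℂ → ℂ} {r : ℝ} {Θ : ℝ → ℝ} (h : Dom φ r) (hΘ : Ang φ Θ) (s t : ℝ) :
    HasDerivAt (fun u => ip (γ φ u - γ φ t) (N φ t))
      (-(‖N φ s‖ * ‖N φ t‖ * Real.sin (Θ s - Θ t))) s := by
  have h1 : HasDerivAt (fun u => (γ φ u - γ φ t) * conj (N φ t)) (Complex.I * N φ s * conj (N φ t)) s :=
    ((γ_der h s).sub_const _).mul_const _
  have h2 := Complex.reCLM.hasFDerivAt.comp_hasDerivAt s h1
  have h3 := ip_N hΘ s t
  unfold ip at h3
  rw [← h3]
  exact h2

theorem conv2 {φ : ℂ → ℂ} {r : ℝ} {Θ : ℝ → ℝ} (h : Dom φ r) (hΘ : Ang φ Θ)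
    (hc : Convex ℝ (φ '' ball 0 1)) (t : ℝ) : 0 ≤ deriv Θ t := by
  by_contra hneg
  rw [not_le] at hneg
  have hd : HasDerivAt Θ (deriv Θ t) t := ((hΘ.sm.differentiable (by simp)) t).hasDerivAt
  have hcont : Continuous Θ := hΘ.sm.continuous
  have h1 := hasDerivAt_iff_tendsto_slope.1 hd
  have h2 : ∀ᶠ s in 𝓝[≠] t, slope Θ t s < 0 := h1.eventually (gt_mem_nhds hneg)
  have h3 : ∀ᶠ s in 𝓝 t, Θ t - Real.pi < Θ s :=
    hcont.continuousAt.eventually (lt_mem_nhds (by linarith [Real.pi_pos]))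
  rw [eventually_nhdsWithin_iff] at h2
  obtain ⟨δ, hδ, hball⟩ := Metric.eventually_nhds_iff.1 (h2.and h3)
  have hmono : StrictMonoOn (fun u => ip (γ φ u - γ φ t) (N φ t)) (Icc t (t + δ / 2)) := by
    apply strictMonoOn_of_deriv_pos (convex_Icc _ _)
    · exact fun u _ => (k_der h hΘ u t).continuousAt.continuousWithinAt
    · intro s hs
      rw [interior_Icc] at hs
      rw [(k_der h hΘ s t).deriv]
      have hds : dist s t < δ := by
        rw [Real.dist_eq, abs_of_pos (by linarith [hs.1])]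
        linarith [hs.2]
      obtain ⟨q1, q2⟩ := hball hds
      have q3 := q1 (ne_of_gt hs.1)
      rw [slope_def_field, div_neg_iff] at q3
      have q4 : Θ s - Θ t < 0 := by
        rcases q3 with ⟨_, q5⟩ | ⟨q5, _⟩
        · linarith [hs.1]
        · exact q5
      have q6 : Real.sin (Θ s - Θ t) < 0 := Real.sin_neg_of_neg_of_neg_pi_lt q4 (by linarith)
      have n1 : 0 < ‖N φ s‖ := norm_pos_iff.2 (N_ne h s)
      have n2 : 0 < ‖N φ t‖ := norm_pos_iff.2 (N_ne h t)
      have : ‖N φ s‖ * ‖N φ t‖ * Real.sin (Θ s - Θ t) < 0 :=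
        mul_neg_of_pos_of_neg (mul_pos n1 n2) q6
      linarith
  have h4 := hmono (left_mem_Icc.2 (by linarith)) (right_mem_Icc.2 (by linarith))
    (by linarith : t < t + δ / 2)
  have h5 := conv1 h hc (t + δ / 2) t
  simp only [sub_self] at h4
  have h6 : ip 0 (N φ t) = 0 := by unfold ip; simp
  rw [h6] at h4
  linarith

/-- `N` is real analytic -/
theorem N_an {φ : ℂ → ℂ} {r : ℝ} (h : Dom φ r) (t : ℝ) : AnalyticAt ℝ (N φ) t := by
  have h1 : AnalyticAt ℝ (fun s : ℝ => (s : ℂ) * Complex.I) t :=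
    (Complex.ofRealCLM.analyticAt t).mul analyticAt_const
  have h2 : AnalyticAt ℝ (fun s : ℝ => Complex.exp ((s : ℂ) * Complex.I)) t := by
    have : AnalyticAt ℝ Complex.exp ((t : ℂ) * Complex.I) :=
      (Complex.differentiable_exp.analyticAt _).restrictScalars
    exact AnalyticAt.fun_comp this h1
  have h3 : AnalyticAt ℝ (fun s : ℝ => deriv φ (Complex.exp ((s : ℂ) * Complex.I))) t := by
    have : AnalyticAt ℝ (deriv φ) (Complex.exp ((t : ℂ) * Complex.I)) :=
      (Dom_open h (circ_mem h.hr t)).deriv.restrictScalars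
    exact AnalyticAt.fun_comp this h2
  exact h2.mul h3

theorem conv3 {φ : ℂ → ℂ} {r : ℝ} {Θ : ℝ → ℝ} (h : Dom φ r) (hΘ : Ang φ Θ)
    (hc : Convex ℝ (φ '' ball 0 1)) : StrictMono Θ := by
  have hcont : Continuous Θ := hΘ.sm.continuous
  have hmono : Monotone Θ := monotone_of_deriv_nonneg (hΘ.sm.differentiable (by simp))
    (conv2 h hΘ hc)
  refine hmono.strictMono_of_injective ?_
  -- it is enough to exclude constant intervals
  have key : ∀ a b : ℝ, a < b → Θ a ≠ Θ b := by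
    intro a b hab he
    set θ := Θ a with hθ
    have hconst : ∀ u ∈ Ioo a b, Θ u = θ := fun u hu =>
      le_antisymm ((hmono hu.2.le).trans he.ge) (hmono hu.1.le)
    set F : ℝ → ℝ := fun u => (N φ u * Complex.exp (-(θ * Complex.I))).im with hF
    have hFeq : ∀ u, F u = ‖N φ u‖ * Real.sin (Θ u - θ) := by
      intro u
      simp only [hF]
      conv_lhs => rw [hΘ.eq u]
      rw [mul_assoc, ← Complex.exp_add, Complex.im_ofReal_mul]
      have : (Θ u : ℂ) * Complex.I + -(θ * Complex.I) = ((Θ u - θ : ℝ) : ℂ) * Complex.I := by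
        push_cast; ring
      rw [this, Complex.exp_ofReal_mul_I_im]
    have hFan : AnalyticOnNhd ℝ F univ := fun u _ =>
      (Complex.imCLM.analyticAt _).fun_comp ((N_an h u).mul analyticAt_const)
    have hm : (a + b) / 2 ∈ Ioo a b := ⟨by linarith, by linarith⟩
    have hev : F =ᶠ[𝓝 ((a + b) / 2)] 0 := by
      filter_upwards [Ioo_mem_nhds hm.1 hm.2] with u hu
      rw [hFeq, hconst u hu, sub_self, Real.sin_zero, mul_zero]
      rfl
    have hz := hFan.eqOn_zero_of_preconnected_of_eventuallyEq_zero isPreconnected_univ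
      (mem_univ _) hev
    have hsin : ∀ u, Real.sin (Θ u - θ) = 0 := by
      intro u
      have h1 : F u = 0 := hz (mem_univ u)
      rw [hFeq] at h1
      exact (mul_eq_zero.1 h1).resolve_left (norm_ne_zero_iff.2 (N_ne h u))
    have hiv : θ + Real.pi / 2 ∈ Θ '' Icc a (a + 2 * Real.pi) := by
      apply intermediate_value_Icc (by linarith [Real.pi_pos]) hcont.continuousOn
      rw [hΘ.per a]
      constructor <;> linarith [Real.pi_pos]
    obtain ⟨u, _, hu⟩ := hiv
    have h1 := hsin u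
    rw [hu, add_sub_cancel_left, Real.sin_pi_div_two] at h1
    exact one_ne_zero h1
  intro a b hab
  by_contra hne
  rcases lt_or_gt_of_ne hne with h1 | h1
  · exact key a b h1 hab
  · exact key b a h1 hab.symm

/-- package CONV -/
theorem t_CONV : S_CONV := fun _ _ _ h hΘ hc =>
  ⟨conv1 h hc, conv2 h hΘ hc, conv3 h hΘ hc⟩

end Pool.Agent.P8H7.SV
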